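import Mathlib.Tactic.LinearCombination
import Mathlib.Algebra.Ring.Basic

/-! Polynomial identities used by the binary-Lie algebras in characteristic two. -/

set_option autoImplicit false

namespace Pool.Agent.Lib.BLie

theorem jac0 {R : Type*} [CommRing R] (x1 x2 y1 y2 : R) (h1 : x1^2 = 0) (h2 : x2^2 = 0)
    (h3 : y1^2 = 0) (h4 : y2^2 = 0) (h5 : (2:R) = 0)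
    (a1 a2 a3 a4 a5 b1 b2 b3 b4 b5 c1 c2 c3 c4 c5 : R) :
    (a1*x2+a2*y2+a3*(x1*y1)+a4*(x2*y2*x1)+a5*(x2*y2*y1))*((b1*x1+b2*y1+b3*(x2*y2)+b4*(x1*y1*x2)+b5*(x1*y1*y2))*(c1*x1+c2*y1+c3*(x2*y2)+c4*(x1*y1*x2)+c5*(x1*y1*y2)))
     + (b1*x2+b2*y2+b3*(x1*y1)+b4*(x2*y2*x1)+b5*(x2*y2*y1))*((c1*x1+c2*y1+c3*(x2*y2)+c4*(x1*y1*x2)+c5*(x1*y1*y2))*(a1*x1+a2*y1+a3*(x2*y2)+a4*(x1*y1*x2)+a5*(x1*y1*y2)))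
     + (c1*x2+c2*y2+c3*(x1*y1)+c4*(x2*y2*x1)+c5*(x2*y2*y1))*((a1*x1+a2*y1+a3*(x2*y2)+a4*(x1*y1*x2)+a5*(x1*y1*y2))*(b1*x1+b2*y1+b3*(x2*y2)+b4*(x1*y1*x2)+b5*(x1*y1*y2))) = 0 := by
  linear_combination
    (3*a1*b1*c1*x2 + a1*b1*c2*y2 + a1*b1*c3*x1*y1 + a1*b1*c4*x1*x2*y2 + 2*a1*b1*c4*x2^2*y1 + 3*a1*b1*c5*x2*y1*y2 + a1*b2*c1*y2 + a1*b2*c3*y1^2 + 2*a1*b2*c4*x2*y1*y2 + a1*b2*c5*y1*y2^2 + a1*b3*c1*x1*y1 + a1*b3*c2*y1^2 + 2*a1*b3*c3*x2*y1*y2 + a1*b3*c4*x1*x2*y1^2 + a1*b3*c4*x2^2*y2^2 + a1*b3*c5*x1*y1^2*y2 + a1*b4*c1*x1*x2*y2 + 2*a1*b4*c1*x2^2*y1 + 2*a1*b4*c2*x2*y1*y2 + a1*b4*c3*x1*x2*y1^2 + a1*b4*c3*x2^2*y2^2 + 2*a1*b4*c4*x1*x2^2*y1*y2 + a1*b4*c4*x2^3*y1^2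 + a1*b4*c5*x1*x2*y1*y2^2 + 2*a1*b4*c5*x2^2*y1^2*y2 + 3*a1*b5*c1*x2*y1*y2 + a1*b5*c2*y1*y2^2 + a1*b5*c3*x1*y1^2*y2 + a1*b5*c4*x1*x2*y1*y2^2 + 2*a1*b5*c4*x2^2*y1^2*y2 + 3*a1*b5*c5*x2*y1^2*y2^2 + a2*b1*c1*y2 + a2*b1*c3*y1^2 + 2*a2*b1*c4*x2*y1*y2 + a2*b1*c5*y1*y2^2 + a2*b3*c1*y1^2 + a2*b3*c4*x2*y1^3 + a2*b3*c5*y1^3*y2 + 2*a2*b4*c1*x2*y1*y2 + a2*b4*c3*x2*y1^3 + 3*a2*b4*c4*x2^2*y1^2*y2 + 2*a2*b4*c5*x2*y1^2*y2^2 + a2*b5*c1*y1*y2^2 + a2*b5*c3*y1^3*y2 + 2*a2*b5*c4*x2*y1^2*y2^2 + a2*b5*c5*y1^2*y2^3 + a3*b1*c1*x1*y1 + a3*b1*c2*y1^2 + 2*a3*b1*c3*x2*y1*y2 + a3*b1*c4*x1*x2*y1^2 + a3*b1*c4*x2^2*y2^2 + a3*b1*c5*x1*y1^2*y2 + a3*b2*c1*y1^2 + a3*b2*c4*x2*y1^3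 + a3*b2*c5*y1^3*y2 + 2*a3*b3*c1*x2*y1*y2 + 2*a3*b3*c4*x2^2*y1^2*y2 + 2*a3*b3*c5*x2*y1^2*y2^2 + a3*b4*c1*x1*x2*y1^2 + a3*b4*c1*x2^2*y2^2 + a3*b4*c2*x2*y1^3 + 2*a3*b4*c3*x2^2*y1^2*y2 + a3*b4*c4*x1*x2^2*y1^3 + 2*a3*b4*c4*x2^3*y1*y2^2 + a3*b4*c5*x1*x2*y1^3*y2 + a3*b4*c5*x2^2*y1*y2^3 + a3*b5*c1*x1*y1^2*y2 + a3*b5*c2*y1^3*y2 + 2*a3*b5*c3*x2*y1^2*y2^2 + a3*b5*c4*x1*x2*y1^3*y2 + a3*b5*c4*x2^2*y1*y2^3 + a3*b5*c5*x1*y1^3*y2^2 + a4*b1*c1*x1*x2*y2 + 2*a4*b1*c1*x2^2*y1 + 2*a4*b1*c2*x2*y1*y2 + a4*b1*c3*x1*x2*y1^2 + a4*b1*c3*x2^2*y2^2 + 2*a4*b1*c4*x1*x2^2*y1*y2 + a4*b1*c4*x2^3*y1^2 + a4*b1*c5*x1*x2*y1*y2^2 + 2*a4*b1*c5*x2^2*y1^2*y2 + 2*a4*b2*c1*x2*y1*y2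 + a4*b2*c3*x2*y1^3 + 3*a4*b2*c4*x2^2*y1^2*y2 + 2*a4*b2*c5*x2*y1^2*y2^2 + a4*b3*c1*x1*x2*y1^2 + a4*b3*c1*x2^2*y2^2 + a4*b3*c2*x2*y1^3 + 2*a4*b3*c3*x2^2*y1^2*y2 + a4*b3*c4*x1*x2^2*y1^3 + 2*a4*b3*c4*x2^3*y1*y2^2 + a4*b3*c5*x1*x2*y1^3*y2 + a4*b3*c5*x2^2*y1*y2^3 + 2*a4*b4*c1*x1*x2^2*y1*y2 + a4*b4*c1*x2^3*y1^2 + 3*a4*b4*c2*x2^2*y1^2*y2 + a4*b4*c3*x1*x2^2*y1^3 + 2*a4*b4*c3*x2^3*y1*y2^2 + 3*a4*b4*c4*x1*x2^3*y1^2*y2 + 2*a4*b4*c5*x1*x2^2*y1^2*y2^2 + a4*b4*c5*x2^3*y1^3*y2 + a4*b5*c1*x1*x2*y1*y2^2 + 2*a4*b5*c1*x2^2*y1^2*y2 + 2*a4*b5*c2*x2*y1^2*y2^2 + a4*b5*c3*x1*x2*y1^3*y2 + a4*b5*c3*x2^2*y1*y2^3 + 2*a4*b5*c4*x1*x2^2*y1^2*y2^2 + a4*b5*c4*x2^3*y1^3*y2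 + a4*b5*c5*x1*x2*y1^2*y2^3 + 2*a4*b5*c5*x2^2*y1^3*y2^2 + 3*a5*b1*c1*x2*y1*y2 + a5*b1*c2*y1*y2^2 + a5*b1*c3*x1*y1^2*y2 + a5*b1*c4*x1*x2*y1*y2^2 + 2*a5*b1*c4*x2^2*y1^2*y2 + 3*a5*b1*c5*x2*y1^2*y2^2 + a5*b2*c1*y1*y2^2 + a5*b2*c3*y1^3*y2 + 2*a5*b2*c4*x2*y1^2*y2^2 + a5*b2*c5*y1^2*y2^3 + a5*b3*c1*x1*y1^2*y2 + a5*b3*c2*y1^3*y2 + 2*a5*b3*c3*x2*y1^2*y2^2 + a5*b3*c4*x1*x2*y1^3*y2 + a5*b3*c4*x2^2*y1*y2^3 + a5*b3*c5*x1*y1^3*y2^2 + a5*b4*c1*x1*x2*y1*y2^2 + 2*a5*b4*c1*x2^2*y1^2*y2 + 2*a5*b4*c2*x2*y1^2*y2^2 + a5*b4*c3*x1*x2*y1^3*y2 + a5*b4*c3*x2^2*y1*y2^3 + 2*a5*b4*c4*x1*x2^2*y1^2*y2^2 + a5*b4*c4*x2^3*y1^3*y2 + a5*b4*c5*x1*x2*y1^2*y2^3 + 2*a5*b4*c5*x2^2*y1^3*y2^2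 + 3*a5*b5*c1*x2*y1^2*y2^2 + a5*b5*c2*y1^2*y2^3 + a5*b5*c3*x1*y1^3*y2^2 + a5*b5*c4*x1*x2*y1^2*y2^3 + 2*a5*b5*c4*x2^2*y1^3*y2^2 + 3*a5*b5*c5*x2*y1^3*y2^3) * h1
    + (2*a1*b1*c3*x1*y2 + a1*b2*c3*y1*y2 + a1*b2*c4*x1*y1^2 + 2*a1*b3*c1*x1*y2 + a1*b3*c2*y1*y2 + a1*b3*c3*x2*y2^2 + a1*b3*c4*x1*x2*y1*y2 + 2*a1*b3*c5*x1*y1*y2^2 + a1*b4*c2*x1*y1^2 + a1*b4*c3*x1*x2*y1*y2 + 2*a1*b5*c3*x1*y1*y2^2 + a2*b1*c3*y1*y2 + a2*b1*c4*x1*y1^2 + a2*b3*c1*y1*y2 + a2*b3*c3*y2^3 + 2*a2*b3*c4*x1*y1*y2^2 + a2*b3*c5*y1^2*y2^2 + a2*b4*c1*x1*y1^2 + 2*a2*b4*c3*x1*y1*y2^2 + a2*b4*c5*x1*y1^3*y2 + a2*b5*c3*y1^2*y2^2 + a2*b5*c4*x1*y1^3*y2 + 2*a3*b1*c1*x1*y2 + a3*b1*c2*y1*y2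 + a3*b1*c3*x2*y2^2 + a3*b1*c4*x1*x2*y1*y2 + 2*a3*b1*c5*x1*y1*y2^2 + a3*b2*c1*y1*y2 + a3*b2*c3*y2^3 + 2*a3*b2*c4*x1*y1*y2^2 + a3*b2*c5*y1^2*y2^2 + a3*b3*c1*x2*y2^2 + a3*b3*c2*y2^3 + 3*a3*b3*c3*x1*y1*y2^2 + a3*b3*c4*x1*x2*y2^3 + a3*b3*c5*x2*y1*y2^3 + a3*b4*c1*x1*x2*y1*y2 + 2*a3*b4*c2*x1*y1*y2^2 + a3*b4*c3*x1*x2*y2^3 + a3*b4*c5*x1*x2*y1^2*y2^2 + 2*a3*b5*c1*x1*y1*y2^2 + a3*b5*c2*y1^2*y2^2 + a3*b5*c3*x2*y1*y2^3 + a3*b5*c4*x1*x2*y1^2*y2^2 + 2*a3*b5*c5*x1*y1^2*y2^3 + a4*b1*c2*x1*y1^2 + a4*b1*c3*x1*x2*y1*y2 + a4*b2*c1*x1*y1^2 + 2*a4*b2*c3*x1*y1*y2^2 + a4*b2*c5*x1*y1^3*y2 + a4*b3*c1*x1*x2*y1*y2 + 2*a4*b3*c2*x1*y1*y2^2 + a4*b3*c3*x1*x2*y2^3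 + a4*b3*c5*x1*x2*y1^2*y2^2 + a4*b5*c2*x1*y1^3*y2 + a4*b5*c3*x1*x2*y1^2*y2^2 + 2*a5*b1*c3*x1*y1*y2^2 + a5*b2*c3*y1^2*y2^2 + a5*b2*c4*x1*y1^3*y2 + 2*a5*b3*c1*x1*y1*y2^2 + a5*b3*c2*y1^2*y2^2 + a5*b3*c3*x2*y1*y2^3 + a5*b3*c4*x1*x2*y1^2*y2^2 + 2*a5*b3*c5*x1*y1^2*y2^3 + a5*b4*c2*x1*y1^3*y2 + a5*b4*c3*x1*x2*y1^2*y2^2 + 2*a5*b5*c3*x1*y1^2*y2^3) * h2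
    + (a1*b2*c2*x2 + 2*a1*b2*c5*x1*x2*y2 + 2*a1*b5*c2*x1*x2*y2 + a2*b1*c2*x2 + 2*a2*b1*c5*x1*x2*y2 + a2*b2*c1*x2 + 3*a2*b2*c2*y2 + a2*b2*c3*x1*y1 + 3*a2*b2*c4*x1*x2*y2 + 2*a2*b2*c5*x1*y2^2 + a2*b2*c5*x2*y1*y2 + a2*b3*c2*x1*y1 + 2*a2*b3*c3*x1*x2*y2 + 3*a2*b4*c2*x1*x2*y2 + 2*a2*b5*c1*x1*x2*y2 + 2*a2*b5*c2*x1*y2^2 + a2*b5*c2*x2*y1*y2 + 2*a2*b5*c5*x1*x2*y1*y2^2 + a3*b2*c2*x1*y1 + 2*a3*b2*c3*x1*x2*y2 + 2*a3*b3*c2*x1*x2*y2 + 3*a4*b2*c2*x1*x2*y2 + 2*a5*b1*c2*x1*x2*y2 + 2*a5*b2*c1*x1*x2*y2 + 2*a5*b2*c2*x1*y2^2 + a5*b2*c2*x2*y1*y2 + 2*a5*b2*c5*x1*x2*y1*y2^2 + 2*a5*b5*c2*x1*x2*y1*y2^2) * h3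
    + (a1*b2*c3*x1*x2 + a1*b3*c2*x1*x2 + a2*b1*c3*x1*x2 + 2*a2*b2*c3*x2*y1 + a2*b3*c1*x1*x2 + 2*a2*b3*c2*x2*y1 + a2*b3*c5*x1*x2*y1*y2 + a2*b5*c3*x1*x2*y1*y2 + a3*b1*c2*x1*x2 + a3*b2*c1*x1*x2 + 2*a3*b2*c2*x2*y1 + a3*b2*c5*x1*x2*y1*y2 + a3*b5*c2*x1*x2*y1*y2 + a5*b2*c3*x1*x2*y1*y2 + a5*b3*c2*x1*x2*y1*y2) * h4
    + (a1*b1*c2*x1*x2*y1 + a1*b2*c1*x1*x2*y1 + a1*b2*c2*x1*y1*y2 + a2*b1*c1*x1*x2*y1 + a2*b1*c2*x1*y1*y2 + a2*b2*c1*x1*y1*y2) * h5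

theorem jac1 {R : Type*} [CommRing R] (x1 x2 y1 y2 : R) (h1 : x1^2 = 0) (h2 : x2^2 = 0)
    (h3 : y1^2 = 0) (h4 : y2^2 = 0) (h5 : (2:R) = 0)
    (a1 a2 a3 a4 a5 b1 b2 b3 b4 b5 c1 c2 c3 c4 c5 : R) :
    (a1*x1+a2*y1+a3*(x2*y2)+a4*(x1*y1*x2)+a5*(x1*y1*y2))*((b1*x2+b2*y2+b3*(x1*y1)+b4*(x2*y2*x1)+b5*(x2*y2*y1))*(c1*x2+c2*y2+c3*(x1*y1)+c4*(x2*y2*x1)+c5*(x2*y2*y1)))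
     + (b1*x1+b2*y1+b3*(x2*y2)+b4*(x1*y1*x2)+b5*(x1*y1*y2))*((c1*x2+c2*y2+c3*(x1*y1)+c4*(x2*y2*x1)+c5*(x2*y2*y1))*(a1*x2+a2*y2+a3*(x1*y1)+a4*(x2*y2*x1)+a5*(x2*y2*y1)))
     + (c1*x1+c2*y1+c3*(x2*y2)+c4*(x1*y1*x2)+c5*(x1*y1*y2))*((a1*x2+a2*y2+a3*(x1*y1)+a4*(x2*y2*x1)+a5*(x2*y2*y1))*(b1*x2+b2*y2+b3*(x1*y1)+b4*(x2*y2*x1)+b5*(x2*y2*y1))) = 0 := by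
  linear_combination
    (2*a1*b1*c3*x2*y1 + 2*a1*b1*c4*x2^2*y2 + a1*b2*c3*y1*y2 + a1*b2*c4*x2*y2^2 + 2*a1*b3*c1*x2*y1 + a1*b3*c2*y1*y2 + a1*b3*c3*x1*y1^2 + a1*b3*c4*x1*x2*y1*y2 + a1*b3*c4*x2^2*y1^2 + 2*a1*b3*c5*x2*y1^2*y2 + 2*a1*b4*c1*x2^2*y2 + a1*b4*c2*x2*y2^2 + a1*b4*c3*x1*x2*y1*y2 + a1*b4*c3*x2^2*y1^2 + a1*b4*c4*x1*x2^2*y2^2 + 2*a1*b4*c4*x2^3*y1*y2 + 2*a1*b4*c5*x2^2*y1*y2^2 + 2*a1*b5*c3*x2*y1^2*y2 + 2*a1*b5*c4*x2^2*y1*y2^2 + a2*b1*c3*y1*y2 + a2*b1*c4*x2*y2^2 + a2*b3*c1*y1*y2 + a2*b3*c3*y1^3 + 2*a2*b3*c4*x2*y1^2*y2 + a2*b3*c5*y1^2*y2^2 + a2*b4*c1*x2*y2^2 + 2*a2*b4*c3*x2*y1^2*y2 + 3*a2*b4*c4*x2^2*y1*y2^2 + a2*b4*c5*x2*y1*y2^3 + a2*b5*c3*y1^2*y2^2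 + a2*b5*c4*x2*y1*y2^3 + 2*a3*b1*c1*x2*y1 + a3*b1*c2*y1*y2 + a3*b1*c3*x1*y1^2 + a3*b1*c4*x1*x2*y1*y2 + a3*b1*c4*x2^2*y1^2 + 2*a3*b1*c5*x2*y1^2*y2 + a3*b2*c1*y1*y2 + a3*b2*c3*y1^3 + 2*a3*b2*c4*x2*y1^2*y2 + a3*b2*c5*y1^2*y2^2 + a3*b3*c1*x1*y1^2 + a3*b3*c2*y1^3 + 3*a3*b3*c3*x2*y1^2*y2 + a3*b3*c4*x1*x2*y1^3 + 2*a3*b3*c4*x2^2*y1*y2^2 + a3*b3*c5*x1*y1^3*y2 + a3*b4*c1*x1*x2*y1*y2 + a3*b4*c1*x2^2*y1^2 + 2*a3*b4*c2*x2*y1^2*y2 + a3*b4*c3*x1*x2*y1^3 + 2*a3*b4*c3*x2^2*y1*y2^2 + 2*a3*b4*c4*x1*x2^2*y1^2*y2 + a3*b4*c4*x2^3*y2^3 + a3*b4*c5*x1*x2*y1^2*y2^2 + a3*b4*c5*x2^2*y1^3*y2 + 2*a3*b5*c1*x2*y1^2*y2 + a3*b5*c2*y1^2*y2^2 + a3*b5*c3*x1*y1^3*y2 + a3*b5*c4*x1*x2*y1^2*y2^2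 + a3*b5*c4*x2^2*y1^3*y2 + 2*a3*b5*c5*x2*y1^3*y2^2 + 2*a4*b1*c1*x2^2*y2 + a4*b1*c2*x2*y2^2 + a4*b1*c3*x1*x2*y1*y2 + a4*b1*c3*x2^2*y1^2 + a4*b1*c4*x1*x2^2*y2^2 + 2*a4*b1*c4*x2^3*y1*y2 + 2*a4*b1*c5*x2^2*y1*y2^2 + a4*b2*c1*x2*y2^2 + 2*a4*b2*c3*x2*y1^2*y2 + 3*a4*b2*c4*x2^2*y1*y2^2 + a4*b2*c5*x2*y1*y2^3 + a4*b3*c1*x1*x2*y1*y2 + a4*b3*c1*x2^2*y1^2 + 2*a4*b3*c2*x2*y1^2*y2 + a4*b3*c3*x1*x2*y1^3 + 2*a4*b3*c3*x2^2*y1*y2^2 + 2*a4*b3*c4*x1*x2^2*y1^2*y2 + a4*b3*c4*x2^3*y2^3 + a4*b3*c5*x1*x2*y1^2*y2^2 + a4*b3*c5*x2^2*y1^3*y2 + a4*b4*c1*x1*x2^2*y2^2 + 2*a4*b4*c1*x2^3*y1*y2 + 3*a4*b4*c2*x2^2*y1*y2^2 + 2*a4*b4*c3*x1*x2^2*y1^2*y2 + a4*b4*c3*x2^3*y2^3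 + 3*a4*b4*c4*x1*x2^3*y1*y2^2 + a4*b4*c5*x1*x2^2*y1*y2^3 + 2*a4*b4*c5*x2^3*y1^2*y2^2 + 2*a4*b5*c1*x2^2*y1*y2^2 + a4*b5*c2*x2*y1*y2^3 + a4*b5*c3*x1*x2*y1^2*y2^2 + a4*b5*c3*x2^2*y1^3*y2 + a4*b5*c4*x1*x2^2*y1*y2^3 + 2*a4*b5*c4*x2^3*y1^2*y2^2 + 2*a4*b5*c5*x2^2*y1^2*y2^3 + 2*a5*b1*c3*x2*y1^2*y2 + 2*a5*b1*c4*x2^2*y1*y2^2 + a5*b2*c3*y1^2*y2^2 + a5*b2*c4*x2*y1*y2^3 + 2*a5*b3*c1*x2*y1^2*y2 + a5*b3*c2*y1^2*y2^2 + a5*b3*c3*x1*y1^3*y2 + a5*b3*c4*x1*x2*y1^2*y2^2 + a5*b3*c4*x2^2*y1^3*y2 + 2*a5*b3*c5*x2*y1^3*y2^2 + 2*a5*b4*c1*x2^2*y1*y2^2 + a5*b4*c2*x2*y1*y2^3 + a5*b4*c3*x1*x2*y1^2*y2^2 + a5*b4*c3*x2^2*y1^3*y2 + a5*b4*c4*x1*x2^2*y1*y2^3 + 2*a5*b4*c4*x2^3*y1^2*y2^2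 + 2*a5*b4*c5*x2^2*y1^2*y2^3 + 2*a5*b5*c3*x2*y1^3*y2^2 + 2*a5*b5*c4*x2^2*y1^2*y2^3) * h1
    + (3*a1*b1*c1*x1 + a1*b1*c2*y1 + a1*b1*c3*x2*y2 + a1*b1*c4*x1*x2*y1 + 3*a1*b1*c5*x1*y1*y2 + a1*b2*c1*y1 + a1*b2*c3*y2^2 + 2*a1*b2*c4*x1*y1*y2 + a1*b2*c5*y1^2*y2 + a1*b3*c1*x2*y2 + a1*b3*c2*y2^2 + 2*a1*b3*c3*x1*y1*y2 + a1*b3*c4*x1*x2*y2^2 + a1*b3*c5*x2*y1*y2^2 + a1*b4*c1*x1*x2*y1 + 2*a1*b4*c2*x1*y1*y2 + a1*b4*c3*x1*x2*y2^2 + a1*b4*c5*x1*x2*y1^2*y2 + 3*a1*b5*c1*x1*y1*y2 + a1*b5*c2*y1^2*y2 + a1*b5*c3*x2*y1*y2^2 + a1*b5*c4*x1*x2*y1^2*y2 + 3*a1*b5*c5*x1*y1^2*y2^2 + a2*b1*c1*y1 + a2*b1*c3*y2^2 + 2*a2*b1*c4*x1*y1*y2 + a2*b1*c5*y1^2*y2 + a2*b3*c1*y2^2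 + a2*b3*c4*x1*y2^3 + a2*b3*c5*y1*y2^3 + 2*a2*b4*c1*x1*y1*y2 + a2*b4*c3*x1*y2^3 + 2*a2*b4*c5*x1*y1^2*y2^2 + a2*b5*c1*y1^2*y2 + a2*b5*c3*y1*y2^3 + 2*a2*b5*c4*x1*y1^2*y2^2 + a2*b5*c5*y1^3*y2^2 + a3*b1*c1*x2*y2 + a3*b1*c2*y2^2 + 2*a3*b1*c3*x1*y1*y2 + a3*b1*c4*x1*x2*y2^2 + a3*b1*c5*x2*y1*y2^2 + a3*b2*c1*y2^2 + a3*b2*c4*x1*y2^3 + a3*b2*c5*y1*y2^3 + 2*a3*b3*c1*x1*y1*y2 + 2*a3*b3*c5*x1*y1^2*y2^2 + a3*b4*c1*x1*x2*y2^2 + a3*b4*c2*x1*y2^3 + a3*b4*c5*x1*x2*y1*y2^3 + a3*b5*c1*x2*y1*y2^2 + a3*b5*c2*y1*y2^3 + 2*a3*b5*c3*x1*y1^2*y2^2 + a3*b5*c4*x1*x2*y1*y2^3 + a3*b5*c5*x2*y1^2*y2^3 + a4*b1*c1*x1*x2*y1 + 2*a4*b1*c2*x1*y1*y2 + a4*b1*c3*x1*x2*y2^2 +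 a4*b1*c5*x1*x2*y1^2*y2 + 2*a4*b2*c1*x1*y1*y2 + a4*b2*c3*x1*y2^3 + 2*a4*b2*c5*x1*y1^2*y2^2 + a4*b3*c1*x1*x2*y2^2 + a4*b3*c2*x1*y2^3 + a4*b3*c5*x1*x2*y1*y2^3 + a4*b5*c1*x1*x2*y1^2*y2 + 2*a4*b5*c2*x1*y1^2*y2^2 + a4*b5*c3*x1*x2*y1*y2^3 + a4*b5*c5*x1*x2*y1^3*y2^2 + 3*a5*b1*c1*x1*y1*y2 + a5*b1*c2*y1^2*y2 + a5*b1*c3*x2*y1*y2^2 + a5*b1*c4*x1*x2*y1^2*y2 + 3*a5*b1*c5*x1*y1^2*y2^2 + a5*b2*c1*y1^2*y2 + a5*b2*c3*y1*y2^3 + 2*a5*b2*c4*x1*y1^2*y2^2 + a5*b2*c5*y1^3*y2^2 + a5*b3*c1*x2*y1*y2^2 + a5*b3*c2*y1*y2^3 + 2*a5*b3*c3*x1*y1^2*y2^2 + a5*b3*c4*x1*x2*y1*y2^3 + a5*b3*c5*x2*y1^2*y2^3 + a5*b4*c1*x1*x2*y1^2*y2 + 2*a5*b4*c2*x1*y1^2*y2^2 + a5*b4*c3*x1*x2*y1*y2^3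 + a5*b4*c5*x1*x2*y1^3*y2^2 + 3*a5*b5*c1*x1*y1^2*y2^2 + a5*b5*c2*y1^3*y2^2 + a5*b5*c3*x2*y1^2*y2^3 + a5*b5*c4*x1*x2*y1^3*y2^2 + 3*a5*b5*c5*x1*y1^3*y2^3) * h2
    + (a1*b2*c3*x1*x2 + a1*b3*c2*x1*x2 + a2*b1*c3*x1*x2 + 2*a2*b2*c3*x1*y2 + 2*a2*b2*c5*x2*y2^2 + a2*b3*c1*x1*x2 + 2*a2*b3*c2*x1*y2 + a2*b3*c5*x1*x2*y1*y2 + 2*a2*b5*c2*x2*y2^2 + a2*b5*c3*x1*x2*y1*y2 + 2*a2*b5*c5*x1*x2*y2^3 + a3*b1*c2*x1*x2 + a3*b2*c1*x1*x2 + 2*a3*b2*c2*x1*y2 + a3*b2*c5*x1*x2*y1*y2 + a3*b5*c2*x1*x2*y1*y2 + 2*a5*b2*c2*x2*y2^2 + a5*b2*c3*x1*x2*y1*y2 + 2*a5*b2*c5*x1*x2*y2^3 + a5*b3*c2*x1*x2*y1*y2 + 2*a5*b5*c2*x1*x2*y2^3) * h3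
    + (a1*b2*c2*x1 + 2*a1*b2*c5*x1*x2*y1 + 2*a1*b5*c2*x1*x2*y1 + a2*b1*c2*x1 + 2*a2*b1*c5*x1*x2*y1 + a2*b2*c1*x1 + 3*a2*b2*c2*y1 + a2*b2*c3*x2*y2 + 3*a2*b2*c4*x1*x2*y1 + a2*b2*c5*x1*y1*y2 + a2*b3*c2*x2*y2 + 2*a2*b3*c3*x1*x2*y1 + 3*a2*b4*c2*x1*x2*y1 + 2*a2*b5*c1*x1*x2*y1 + a2*b5*c2*x1*y1*y2 + a3*b2*c2*x2*y2 + 2*a3*b2*c3*x1*x2*y1 + 2*a3*b3*c2*x1*x2*y1 + 3*a4*b2*c2*x1*x2*y1 + 2*a5*b1*c2*x1*x2*y1 + 2*a5*b2*c1*x1*x2*y1 + a5*b2*c2*x1*y1*y2) * h4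
    + (a1*b1*c2*x1*x2*y2 + a1*b2*c1*x1*x2*y2 + a1*b2*c2*x2*y1*y2 + a2*b1*c1*x1*x2*y2 + a2*b1*c2*x2*y1*y2 + a2*b2*c1*x2*y1*y2) * h5

theorem clo0 {R : Type*} [CommRing R] (x1 x2 y1 y2 : R) (h1 : x1^2 = 0) (h2 : x2^2 = 0)
    (h3 : y1^2 = 0) (h4 : y2^2 = 0) (h5 : (2:R) = 0)
    (a1 a2 a3 a4 a5 b1 b2 b3 b4 b5 : R) :
    (a1*x2+a2*y2+a3*(x1*y1)+a4*(x2*y2*x1)+a5*(x2*y2*y1))*(b1*x2+b2*y2+b3*(x1*y1)+b4*(x2*y2*x1)+b5*(x2*y2*y1)) = (0*x1+0*y1+(a1*b2+a2*b1)*(x2*y2)+(a1*b3+a3*b1)*(x1*y1*x2)+(a2*b3+a3*b2)*(x1*y1*y2)) := by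
  linear_combination
    (a3*b3*y1^2 + a3*b4*x2*y1*y2 + a4*b3*x2*y1*y2 + a4*b4*x2^2*y2^2) * h1
    + (a1*b1 + a1*b4*x1*y2 + a1*b5*y1*y2 + a4*b1*x1*y2 + a4*b5*x1*y1*y2^2 + a5*b1*y1*y2 + a5*b4*x1*y1*y2^2 + a5*b5*y1^2*y2^2) * h2
    + (a3*b5*x1*x2*y2 + a5*b3*x1*x2*y2) * h3
    + (a2*b2 + a2*b4*x1*x2 + a2*b5*x2*y1 + a4*b2*x1*x2 + a5*b2*x2*y1) * h4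
    + (0) * h5

theorem clo1 {R : Type*} [CommRing R] (x1 x2 y1 y2 : R) (h1 : x1^2 = 0) (h2 : x2^2 = 0)
    (h3 : y1^2 = 0) (h4 : y2^2 = 0) (h5 : (2:R) = 0)
    (a1 a2 a3 a4 a5 b1 b2 b3 b4 b5 : R) :
    (a1*x1+a2*y1+a3*(x2*y2)+a4*(x1*y1*x2)+a5*(x1*y1*y2))*(b1*x1+b2*y1+b3*(x2*y2)+b4*(x1*y1*x2)+b5*(x1*y1*y2)) = (0*x2+0*y2+(a1*b2+a2*b1)*(x1*y1)+(a1*b3+a3*b1)*(x2*y2*x1)+(a2*b3+a3*b2)*(x2*y2*y1)) := by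
  linear_combination
    (a1*b1 + a1*b4*x2*y1 + a1*b5*y1*y2 + a4*b1*x2*y1 + a4*b4*x2^2*y1^2 + a4*b5*x2*y1^2*y2 + a5*b1*y1*y2 + a5*b4*x2*y1^2*y2 + a5*b5*y1^2*y2^2) * h1
    + (a3*b3*y2^2 + a3*b4*x1*y1*y2 + a4*b3*x1*y1*y2) * h2
    + (a2*b2 + a2*b4*x1*x2 + a2*b5*x1*y2 + a4*b2*x1*x2 + a5*b2*x1*y2) * h3
    + (a3*b5*x1*x2*y1 + a5*b3*x1*x2*y1) * h4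
    + (0) * h5


end Pool.Agent.Lib.BLie
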