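import Mathlib
import Pool.Agent.Lib.BLie.Ident

/-! Let `F` be a field of characteristic two, `s` a type, `R = F[X_i : i in s] / (X_i ^ 2)` and let
`I` be the ideal of `R` generated by the variables.  The algebra `Alg F s` is `I × I` with
`(a, b) (c, d) = (b d, a c)`. -/

set_option autoImplicit false

namespace Pool.Agent.Lib.BLie

universe u v

variable (F : Type u) [Field F] (s : Type v)

/-- exponent vectors of the squares of the variables -/
def sqs : Set (s →₀ ℕ) := Set.range (fun i : s => Finsupp.single i 2)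

/-- the ideal generated by the squares of the variables -/
noncomputable def sqI : Ideal (MvPolynomial s F) :=
  Ideal.span ((fun e => MvPolynomial.monomial e (1 : F)) '' sqs s)

/-- polynomials modulo the squares of the variables -/
abbrev RQ : Type _ := MvPolynomial s F ⧸ sqI F s

/-- the image of a variable -/
noncomputable def xv (i : s) : RQ F s := Ideal.Quotient.mk (sqI F s) (MvPolynomial.X i)

/-- the ideal generated by the variables -/
noncomputable def maxI : Ideal (RQ F s) := Ideal.span (Set.range (xv F s))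

variable {F s}

theorem two_F [CharP F 2] : (2 : F) = 0 := by
  exact_mod_cast CharP.cast_eq_zero F 2

theorem two_RQ [CharP F 2] : (2 : RQ F s) = 0 := by
  have : (2 : RQ F s) = algebraMap F (RQ F s) 2 := (map_ofNat _ 2).symm
  rw [this, two_F, map_zero]

theorem xv_sq (i : s) : xv F s i ^ 2 = 0 := by
  unfold xv
  rw [← map_pow, Ideal.Quotient.eq_zero_iff_mem, MvPolynomial.X_pow_eq_monomial]
  exact Ideal.subset_span ⟨_, ⟨i, rfl⟩, rfl⟩

theorem maxI_sq [CharP F 2] (a : RQ F s) (ha : a ∈ maxI F s) : a ^ 2 = 0 := by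
  induction ha using Submodule.span_induction with
  | mem a h =>
    obtain ⟨i, rfl⟩ := h
    exact xv_sq i
  | zero => simp
  | add a b _ _ ha hb =>
    linear_combination ha + hb + a * b * two_RQ (F := F) (s := s)
  | smul r a _ ha =>
    rw [smul_eq_mul, mul_pow, ha, mul_zero]

variable (F s)

/-- the algebra -/
def Alg : Type _ := ↥(maxI F s) × ↥(maxI F s)

noncomputable instance : AddCommGroup (Alg F s) :=
  inferInstanceAs (AddCommGroup (↥(maxI F s) × ↥(maxI F s)))
noncomputable instance : Module F (Alg F s) :=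
  inferInstanceAs (Module F (↥(maxI F s) × ↥(maxI F s)))

/-- the product -/
noncomputable instance : Mul (Alg F s) :=
  ⟨fun u v => (⟨(u.2 : RQ F s) * v.2, (maxI F s).mul_mem_left _ v.2.2⟩,
    ⟨(u.1 : RQ F s) * v.1, (maxI F s).mul_mem_left _ v.1.2⟩)⟩

variable {F s}

theorem ext' {u v : Alg F s} (h1 : (u.1 : RQ F s) = v.1) (h2 : (u.2 : RQ F s) = v.2) : u = v :=
  Prod.ext (Subtype.ext h1) (Subtype.ext h2)

@[simp] theorem mul_fst (u v : Alg F s) :
    (((u * v).1 : ↥(maxI F s)) : RQ F s) = (u.2 : RQ F s) * v.2 := rfl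
@[simp] theorem mul_snd (u v : Alg F s) :
    (((u * v).2 : ↥(maxI F s)) : RQ F s) = (u.1 : RQ F s) * v.1 := rfl
@[simp] theorem add_fst (u v : Alg F s) :
    (((u + v).1 : ↥(maxI F s)) : RQ F s) = (u.1 : RQ F s) + v.1 := rfl
@[simp] theorem add_snd (u v : Alg F s) :
    (((u + v).2 : ↥(maxI F s)) : RQ F s) = (u.2 : RQ F s) + v.2 := rfl
@[simp] theorem zero_fst : (((0 : Alg F s).1 : ↥(maxI F s)) : RQ F s) = 0 := rfl
@[simp] theorem zero_snd : (((0 : Alg F s).2 : ↥(maxI F s)) : RQ F s) = 0 := rfl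
@[simp] theorem smul_fst (c : F) (v : Alg F s) :
    (((c • v).1 : ↥(maxI F s)) : RQ F s) = algebraMap F (RQ F s) c * (v.1 : RQ F s) := by
  rw [← Algebra.smul_def]; rfl
@[simp] theorem smul_snd (c : F) (v : Alg F s) :
    (((c • v).2 : ↥(maxI F s)) : RQ F s) = algebraMap F (RQ F s) c * (v.2 : RQ F s) := by
  rw [← Algebra.smul_def]; rfl

noncomputable instance : NonUnitalNonAssocRing (Alg F s) :=
  { (inferInstance : AddCommGroup (Alg F s)), (inferInstance : Mul (Alg F s)) with
    left_distrib := fun a b c => ext' (by simp [mul_add]) (by simp [mul_add])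
    right_distrib := fun a b c => ext' (by simp [add_mul]) (by simp [add_mul])
    zero_mul := fun a => ext' (by simp) (by simp)
    mul_zero := fun a => ext' (by simp) (by simp) }

noncomputable instance : Module F (Alg F s) :=
  inferInstanceAs (Module F (↥(maxI F s) × ↥(maxI F s)))

instance : IsScalarTower F (Alg F s) (Alg F s) := ⟨fun c u v => by
  refine ext' ?_ ?_
  · simp only [smul_eq_mul, mul_fst, smul_fst, smul_snd]; ring
  · simp only [smul_eq_mul, mul_snd, smul_fst, smul_snd]; ring⟩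

instance : SMulCommClass F (Alg F s) (Alg F s) := ⟨fun c u v => by
  refine ext' ?_ ?_
  · simp only [smul_eq_mul, mul_fst, smul_fst, smul_snd]; ring
  · simp only [smul_eq_mul, mul_snd, smul_fst, smul_snd]; ring⟩

theorem mul_self' [CharP F 2] (u : Alg F s) : u * u = 0 := by
  refine ext' ?_ ?_
  · have := maxI_sq _ u.2.2
    simp only [mul_fst, zero_fst]
    rw [← sq]; exact this
  · have := maxI_sq _ u.1.2
    simp only [mul_snd, zero_snd]
    rw [← sq]; exact this

/-- the explicit form of the elements of the subalgebra generated by `a` and `b` -/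
def Form (a b u : Alg F s) : Prop :=
  ∃ c1 c2 c3 c4 c5 : RQ F s,
    (u.1 : RQ F s) = (c1*a.1+c2*b.1+c3*(a.2*b.2)+c4*(a.1*b.1*a.2)+c5*(a.1*b.1*b.2)) ∧
    (u.2 : RQ F s) = (c1*a.2+c2*b.2+c3*(a.1*b.1)+c4*(a.2*b.2*a.1)+c5*(a.2*b.2*b.1))

theorem form_adjoin [CharP F 2] (a b u : Alg F s)
    (hu : u ∈ NonUnitalAlgebra.adjoin F ({a, b} : Set (Alg F s))) :
    Form a b u := by
  have h1 : (a.1 : RQ F s)^2 = 0 := maxI_sq _ a.1.2
  have h2 : (a.2 : RQ F s)^2 = 0 := maxI_sq _ a.2.2
  have h3 : (b.1 : RQ F s)^2 = 0 := maxI_sq _ b.1.2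
  have h4 : (b.2 : RQ F s)^2 = 0 := maxI_sq _ b.2.2
  induction hu using NonUnitalAlgebra.adjoin_induction with
  | mem u hu =>
    rcases hu with rfl | hu
    · exact ⟨1, 0, 0, 0, 0, by ring, by ring⟩
    · rw [Set.mem_singleton_iff] at hu
      subst hu
      exact ⟨0, 1, 0, 0, 0, by ring, by ring⟩
  | zero => exact ⟨0, 0, 0, 0, 0, by simp, by simp⟩
  | add u v _ _ hu hv =>
    obtain ⟨a1, a2, a3, a4, a5, e1, e2⟩ := hu
    obtain ⟨b1, b2, b3, b4, b5, f1, f2⟩ := hv
    refine ⟨a1 + b1, a2 + b2, a3 + b3, a4 + b4, a5 + b5, ?_, ?_⟩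
    · rw [add_fst, e1, f1]; ring
    · rw [add_snd, e2, f2]; ring
  | mul u v _ _ hu hv =>
    obtain ⟨a1, a2, a3, a4, a5, e1, e2⟩ := hu
    obtain ⟨b1, b2, b3, b4, b5, f1, f2⟩ := hv
    refine ⟨0, 0, a1*b2+a2*b1, a1*b3+a3*b1, a2*b3+a3*b2, ?_, ?_⟩
    · rw [mul_fst, e2, f2]
      exact clo0 _ _ _ _ h1 h2 h3 h4 two_RQ _ _ _ _ _ _ _ _ _ _
    · rw [mul_snd, e1, f1]
      exact clo1 _ _ _ _ h1 h2 h3 h4 two_RQ _ _ _ _ _ _ _ _ _ _
  | smul c u _ hu =>
    obtain ⟨a1, a2, a3, a4, a5, e1, e2⟩ := hu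
    refine ⟨algebraMap F (RQ F s) c * a1, algebraMap F (RQ F s) c * a2, algebraMap F (RQ F s) c * a3,
      algebraMap F (RQ F s) c * a4, algebraMap F (RQ F s) c * a5, ?_, ?_⟩
    · rw [smul_fst, e1]; ring
    · rw [smul_snd, e2]; ring

theorem jacobi [CharP F 2] (a b u v w : Alg F s) (hu : Form a b u) (hv : Form a b v)
    (hw : Form a b w) :
    u * (v * w) + v * (w * u) + w * (u * v) = 0 := by
  have h1 : (a.1 : RQ F s)^2 = 0 := maxI_sq _ a.1.2
  have h2 : (a.2 : RQ F s)^2 = 0 := maxI_sq _ a.2.2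
  have h3 : (b.1 : RQ F s)^2 = 0 := maxI_sq _ b.1.2
  have h4 : (b.2 : RQ F s)^2 = 0 := maxI_sq _ b.2.2
  obtain ⟨a1, a2, a3, a4, a5, e1, e2⟩ := hu
  obtain ⟨b1, b2, b3, b4, b5, f1, f2⟩ := hv
  obtain ⟨c1, c2, c3, c4, c5, g1, g2⟩ := hw
  refine ext' ?_ ?_
  · simp only [mul_fst, mul_snd, add_fst, zero_fst]
    rw [e1, e2, f1, f2, g1, g2]
    exact jac0 _ _ _ _ h1 h2 h3 h4 two_RQ _ _ _ _ _ _ _ _ _ _ _ _ _ _ _
  · simp only [mul_fst, mul_snd, add_snd, zero_snd]
    rw [e1, e2, f1, f2, g1, g2]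
    exact jac1 _ _ _ _ h1 h2 h3 h4 two_RQ _ _ _ _ _ _ _ _ _ _ _ _ _ _ _

theorem fix {M : Type*} [AddCommGroup M] [Module F M] (w : F) (h : w ≠ 1) (m : M)
    (e : w • m = m) : m = 0 := by
  have f : (w - 1) • m = 0 := by rw [sub_smul, e, one_smul, sub_self]
  exact (smul_eq_zero.mp f).resolve_left (sub_ne_zero.mpr h)

/-- the first embedding -/
noncomputable def inl (a : ↥(maxI F s)) : Alg F s := ((a, 0) : ↥(maxI F s) × ↥(maxI F s))
/-- the second embedding -/
noncomputable def inr (a : ↥(maxI F s)) : Alg F s := ((0, a) : ↥(maxI F s) × ↥(maxI F s))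

theorem inl_mul (a b c : ↥(maxI F s)) (h : (a : RQ F s) * b = c) : inl a * inl b = inr c := by
  refine ext' ?_ ?_
  · change (0 : RQ F s) * 0 = 0
    rw [mul_zero]
  · exact h

theorem inr_mul (a b c : ↥(maxI F s)) (h : (a : RQ F s) * b = c) : inr a * inr b = inl c := by
  refine ext' ?_ ?_
  · exact h
  · change (0 : RQ F s) * 0 = 0
    rw [mul_zero]

/-- the automorphism attached to a root of `t ^ 2 + t + 1` -/
noncomputable def phi (w : F) (hw : w ^ 2 + w + 1 = 0) : Alg F s →ₙₐ[F] Alg F s where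
  toFun u := (w • u.1, (w^2) • u.2)
  map_smul' c u := by
    refine Prod.ext ?_ ?_
    · exact smul_comm w c u.1
    · exact smul_comm (w^2) c u.2
  map_zero' := by
    refine Prod.ext ?_ ?_
    · exact smul_zero w
    · exact smul_zero (w^2)
  map_add' u v := by
    refine Prod.ext ?_ ?_
    · exact smul_add w u.1 v.1
    · exact smul_add (w^2) u.2 v.2
  map_mul' u v := by
    have h3 : w ^ 3 = 1 := by linear_combination (w - 1) * hw
    have h4 : w ^ 4 = w := by linear_combination w * h3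
    refine ext' ?_ ?_
    · change ((w • (u * v).1 : ↥(maxI F s)) : RQ F s)
        = (((w^2) • u.2 : ↥(maxI F s)) : RQ F s) * (((w^2) • v.2 : ↥(maxI F s)) : RQ F s)
      rw [Submodule.coe_smul_of_tower, Submodule.coe_smul_of_tower, Submodule.coe_smul_of_tower,
        mul_fst, smul_mul_smul_comm, ← pow_add, h4]
    · change (((w^2) • (u * v).2 : ↥(maxI F s)) : RQ F s)
        = ((w • u.1 : ↥(maxI F s)) : RQ F s) * ((w • v.1 : ↥(maxI F s)) : RQ F s)
      rw [Submodule.coe_smul_of_tower, Submodule.coe_smul_of_tower, Submodule.coe_smul_of_tower,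
        mul_snd, smul_mul_smul_comm, ← sq]

theorem phi_apply (w : F) (hw : w ^ 2 + w + 1 = 0) (u : Alg F s) :
    phi w hw u = (w • u.1, (w^2) • u.2) := rfl

theorem phi_cube (w : F) (hw : w ^ 2 + w + 1 = 0) (u : Alg F s) :
    phi w hw (phi w hw (phi w hw u)) = u := by
  have h3 : w ^ 3 = 1 := by linear_combination (w - 1) * hw
  simp only [phi_apply]
  refine Prod.ext ?_ ?_
  · change w • w • w • u.1 = u.1
    rw [smul_smul, smul_smul, show w * w * w = 1 by rw [← h3]; ring, one_smul]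
  · change w ^ 2 • w ^ 2 • w ^ 2 • u.2 = u.2
    rw [smul_smul, smul_smul, show w ^ 2 * w ^ 2 * w ^ 2 = 1 by
      linear_combination (w ^ 3 + 1) * h3, one_smul]

theorem phi_fix [CharP F 2] (w : F) (hw : w ^ 2 + w + 1 = 0) (u : Alg F s)
    (hu : phi w hw u = u) : u = 0 := by
  have h3 : w ^ 3 = 1 := by linear_combination (w - 1) * hw
  have hw1 : w ≠ 1 := by
    rintro rfl
    have : (1 : F) = 0 := by linear_combination hw - two_F (F := F)
    exact one_ne_zero this
  have hw2 : w ^ 2 ≠ 1 := by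
    intro h
    apply hw1
    linear_combination h3 - w * h
  rw [phi_apply] at hu
  have e1 : w • u.1 = u.1 := congrArg Prod.fst hu
  have e2 : w ^ 2 • u.2 = u.2 := congrArg Prod.snd hu
  refine Prod.ext ?_ ?_
  · exact fix (M := ↥(maxI F s)) w hw1 u.1 e1
  · exact fix (M := ↥(maxI F s)) (w ^ 2) hw2 u.2 e2

/-- product of the variables with indices in a finite set -/
noncomputable def blk (t : Finset s) : RQ F s := ∏ i ∈ t, xv F s i

theorem blk_mul [DecidableEq s] (t t' : Finset s) (h : Disjoint t t') :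
    blk (F := F) t * blk t' = blk (t ∪ t') := by
  unfold blk
  rw [Finset.prod_union h]

theorem blk_mem (t : Finset s) (ht : t.Nonempty) : blk t ∈ maxI F s := by
  classical
  obtain ⟨i, hi⟩ := ht
  unfold blk
  rw [← Finset.mul_prod_erase t _ hi]
  exact (maxI F s).mul_mem_right _ (Ideal.subset_span ⟨_, rfl⟩)

theorem blk_ne (t : Finset s) : blk (F := F) t ≠ 0 := by
  classical
  have key : blk t = Ideal.Quotient.mk (sqI F s)
      (MvPolynomial.monomial (∑ i ∈ t, Finsupp.single i 1) (1 : F)) := by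
    unfold blk xv
    rw [← map_prod]
    congr 1
    induction t using Finset.induction_on with
    | empty => simp
    | insert a t ha ih =>
      rw [Finset.prod_insert ha, ih, Finset.sum_insert ha, MvPolynomial.X,
        MvPolynomial.monomial_mul, one_mul]
  rw [key, Ne, Ideal.Quotient.eq_zero_iff_mem]
  unfold sqI
  rw [MvPolynomial.mem_ideal_span_monomial_image]
  intro h
  obtain ⟨si, ⟨j, rfl⟩, hle⟩ := h (∑ i ∈ t, Finsupp.single i 1) (by
    rw [MvPolynomial.mem_support_iff, MvPolynomial.coeff_monomial]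
    simp)
  have h2 := hle j
  rw [Finsupp.single_eq_same, Finsupp.finsetSum_apply] at h2
  have h3 : ∑ i ∈ t, (Finsupp.single i 1 : s →₀ ℕ) j ≤ 1 := by
    have : ∀ i ∈ t, (Finsupp.single i 1 : s →₀ ℕ) j = if i = j then 1 else 0 := by
      intro i _
      rw [Finsupp.single_apply]
    rw [Finset.sum_congr rfl this, Finset.sum_ite_eq']
    split_ifs <;> simp
  omega

end Pool.Agent.Lib.BLie
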