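import Mathlib
import Pool.Agent.Lib.BLie.Alg

/-! The algebra `Alg F s` regarded as an algebra over a subfield `E` of `F`. -/

set_option autoImplicit false

namespace Pool.Agent.Lib.BLie

universe u v w

/-- the algebra `Alg F s` over the smaller field `E` -/
def AlgE (_E : Type w) (F : Type u) [Field F] (s : Type v) : Type _ := Alg F s

variable {E : Type w} [Field E] {F : Type u} [Field F] [Algebra E F] {s : Type v}

noncomputable instance : NonUnitalNonAssocRing (AlgE E F s) :=
  inferInstanceAs (NonUnitalNonAssocRing (Alg F s))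

noncomputable instance : Module E (AlgE E F s) := Module.compHom (Alg F s) (algebraMap E F)

/-- the identity map -/
def toAlg (x : AlgE E F s) : Alg F s := x

variable (E) in
/-- the identity map -/
def ofAlg (x : Alg F s) : AlgE E F s := x

theorem ofAlg_mul (x y : Alg F s) : ofAlg E x * ofAlg E y = ofAlg E (x * y) := rfl

theorem toAlg_smul (c : E) (x : AlgE E F s) :
    toAlg (c • x) = (algebraMap E F c • toAlg x : Alg F s) := rfl

theorem toAlg_mul (x y : AlgE E F s) : toAlg (x * y) = toAlg x * toAlg y := rfl

instance : IsScalarTower E (AlgE E F s) (AlgE E F s) := ⟨fun c x y => by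
  change (algebraMap E F c • toAlg x : Alg F s) * toAlg y = algebraMap E F c • (toAlg x * toAlg y)
  exact smul_mul_assoc _ _ _⟩

instance : SMulCommClass E (AlgE E F s) (AlgE E F s) := ⟨fun c x y => by
  change algebraMap E F c • (toAlg x * toAlg y) = toAlg x * (algebraMap E F c • toAlg y : Alg F s)
  exact (mul_smul_comm _ _ _).symm⟩

theorem mem_adjoin (a b x : AlgE E F s)
    (hx : x ∈ NonUnitalAlgebra.adjoin E ({a, b} : Set (AlgE E F s))) :
    toAlg x ∈ NonUnitalAlgebra.adjoin F ({toAlg a, toAlg b} : Set (Alg F s)) := by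
  induction hx using NonUnitalAlgebra.adjoin_induction with
  | mem x hx => exact NonUnitalAlgebra.subset_adjoin F hx
  | zero => exact zero_mem _
  | add x y _ _ h1 h2 => exact add_mem h1 h2
  | mul x y _ _ h1 h2 => exact mul_mem h1 h2
  | smul c x _ h => exact SMulMemClass.smul_mem (algebraMap E F c) h

/-- the automorphism attached to a root of `t ^ 2 + t + 1` -/
noncomputable def phiE (w : F) (hw : w ^ 2 + w + 1 = 0) : AlgE E F s →ₙₐ[E] AlgE E F s where
  toFun x := phi (F := F) (s := s) w hw (toAlg x)
  map_smul' c x := by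
    change phi (F := F) (s := s) w hw (algebraMap E F c • toAlg x) = _
    rw [map_smul]
    rfl
  map_zero' := map_zero (phi (F := F) (s := s) w hw)
  map_add' x y := map_add (phi (F := F) (s := s) w hw) (toAlg x) (toAlg y)
  map_mul' x y := map_mul (phi (F := F) (s := s) w hw) (toAlg x) (toAlg y)

theorem phiE_apply (w : F) (hw : w ^ 2 + w + 1 = 0) (x : AlgE E F s) :
    phiE (E := E) w hw x = phi (F := F) (s := s) w hw (toAlg x) := rfl

theorem phiE_cube (w : F) (hw : w ^ 2 + w + 1 = 0) (x : AlgE E F s) :
    phiE (E := E) w hw (phiE (E := E) w hw (phiE (E := E) w hw x)) = x :=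
  phi_cube (F := F) (s := s) w hw x

theorem phiE_fix [CharP F 2] (w : F) (hw : w ^ 2 + w + 1 = 0) (x : AlgE E F s)
    (hx : phiE (E := E) w hw x = x) : x = 0 :=
  phi_fix (F := F) (s := s) w hw x hx

theorem finE [FiniteDimensional E F] [h : Module.Finite F (Alg F s)] :
    Module.Finite E (AlgE E F s) := by
  letI : Module E (Alg F s) := inferInstanceAs (Module E (AlgE E F s))
  haveI : IsScalarTower E F (Alg F s) := ⟨fun c d x => by
    change (c • d) • x = algebraMap E F c • (d • x)
    rw [Algebra.smul_def, mul_smul]⟩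
  exact Module.Finite.trans (R := E) F (Alg F s)

end Pool.Agent.Lib.BLie
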